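import Pool.Agent.Run7.h9.BS.Defs
import Pool.Agent.Run7.h876.MM.Red

/-!
# Quadratic twists of the members of a family of curves: definitions
-/

set_option autoImplicit false

namespace Run7.h9.TW

open NumberField IsDedekindDomain Polynomial
open Run7.h876.MM (nv SZ kv instFieldKv instFintypeKv instDecKv)
open Run7.h876.EN (affinePoints)
open Run7.h876.HY (GoodAt Family)

section
variable {K : Type} [Field K] [NumberField K]

/-- The quadratic residue symbol of `d` at `v`: `1` if `d` is a nonzero square modulo `v`, `-1` if it is not a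
square modulo `v` and `0` if `v` divides `d`. -/
noncomputable def chi (d : 𝓞 K) (v : HeightOneSpectrum (𝓞 K)) : ℤ := quadraticChar (kv v) (Ideal.Quotient.mk v.asIdeal d)

/-- The trace of the `m`-th power of the Frobenius at `v` on the first cohomology of the smooth projective model
of the quadratic twist `d y² = f(x)`, `f` monic: `Nv^m + 1` minus the number of its points over the extension
of degree `m` of the residue field.  The points of the affine part are counted on `y² = d f(x)` (replace `y` by
`d y`); there is one point at infinity if the degree of `f` is odd, and there are `1 + χ_d(v)^m` if it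
is even (two if `d` is a square in the extension, none if it is not). -/
noncomputable def twistTrace (f : (𝓞 K)[X]) (d : 𝓞 K) (v : HeightOneSpectrum (𝓞 K)) (m : ℕ) : ℤ :=
  (nv v : ℤ) ^ m + 1 - (affinePoints (nv v) ((C d * f).map (Ideal.Quotient.mk v.asIdeal)) m +
    if Odd f.natDegree then 1 else 1 + chi d v ^ m)

open Classical in
/-- `det(1 - Frob_v Nv^(-1) | H¹) = exp(- ∑ tr(Frob_v^m) Nv^(-m) / m) = #J_d(k_v) / Nv^g` for the Jacobian `J_d` of
the twist `d y² = f(x)` of genus `g` at the places `v` that do not divide `2 d` with `f` separable modulo `v`, and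
`1` otherwise. -/
noncomputable def twistFactor (f : (𝓞 K)[X]) (d : 𝓞 K) (v : HeightOneSpectrum (𝓞 K)) : ℝ :=
  if GoodAt f v ∧ d ∉ v.asIdeal then
    Real.exp (-∑' m : ℕ, (twistTrace f d v (m + 1) : ℝ) / (nv v : ℝ) ^ (m + 1) / ((m : ℝ) + 1))
  else 1

/-- The product of Birch and Swinnerton-Dyer for the Jacobian of the twist `d y² = f(x)`: the product of
`#J_d(k_v) / Nv^g` over the places of good reduction (in the sense above) with `Nv ≤ Z`. -/
noncomputable def twistProduct (Z : ℕ) (f : (𝓞 K)[X]) (d : 𝓞 K) : ℝ := ∏ v ∈ SZ K Z, twistFactor f d v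

open Classical in
/-- The number of the marked points of the twist by `d` of the Jacobians of a family: `rk` if `d` is a square
(then the twist is the curve itself) and `0` otherwise. -/
noncomputable def twistRank {J : Type} [Fintype J] (𝓕 : Family K J) (d : 𝓞 K) : ℕ :=
  if IsSquare (d : K) then 𝓕.rk else 0

/-- `∑ (ρ χ_d(v) + χ_d(v)²/2) log(1 - 1/Nv)⁻¹` over the places with `Nv ≤ Z`, where `ρ` is the number `rk` of the
marked points of the Jacobians of the family. -/
noncomputable def twistMean {J : Type} [Fintype J] (𝓕 : Family K J) (d : 𝓞 K) (Z : ℕ) : ℝ :=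
  ∑ v ∈ SZ K Z, (𝓕.rk * (chi d v : ℝ) + (chi d v : ℝ) ^ 2 / 2) * Real.log (1 - 1 / (nv v : ℝ))⁻¹

/-- `∑ χ_d(v) χ_d'(v) log(1 - 1/Nv)⁻¹` over the places with `Nv ≤ Z`. -/
noncomputable def twistCov (d d' : 𝓞 K) (Z : ℕ) : ℝ :=
  ∑ v ∈ SZ K Z, (chi d v : ℝ) * (chi d' v : ℝ) * Real.log (1 - 1 / (nv v : ℝ))⁻¹

end

end Run7.h9.TW
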