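import Pool.Agent.H474R2.GE.HomsUpper
import Pool.Agent.Run7.h9.CM.Cyc
import Pool.Agent.Run7.h9.TW.Defs

/-!
# Mertens' theorem for number fields, and the quadratic characters
-/

set_option autoImplicit false
set_option linter.unusedSectionVars false

namespace Run7.h9.TW

open NumberField IsDedekindDomain Finset Filter Topology
open Run7.h876.MM (nv nv_pos two_le_nv SZ mem_SZ kv card_kv instFieldKv instFintypeKv instDecKv two_ne ring_char_two)
open Run7.h9.BS Run7.h9.CM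
open Pool.Agent.H921R2.TatePole (below deg nm nm_eq R R_eq_hc hc nm_summable)
open Pool.Agent.H474R2.PG (PR)

/-- `log log Z` -/
noncomputable def LL (Z : ℕ) : ℝ := Real.log (Real.log Z)

section
variable (K : Type) [Field K] [NumberField K]

/-- the places of prime norm -/
noncomputable def PZ (Z : ℕ) : Finset (HeightOneSpectrum (𝓞 K)) := (SZ K Z).filter fun v => (nv v).Prime

variable {K}

theorem card_fiber' {Z : ℕ} (P : Nat.Primes) (hpZ : (P : ℕ) ≤ Z) :
    ((PZ K Z).filter fun v => nv v = P).card = Nat.card (𝓞 K →+* ZMod P) := by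
  classical
  have hp := P.2
  have h1 := R_eq_hc (K := K) P
  unfold hc R at h1
  rw [← h1]
  symm
  refine Finset.card_bij (fun v _ => v.1) ?_ ?_ ?_
  · intro v hv
    have h2 := (Finset.mem_filter.1 hv).2
    obtain ⟨h3, h4, h5⟩ := nm_eq v.1
    have h6 : nv v.1 = P := by
      have : nv v.1 = nm v.1 := rfl
      rw [this, h3, h2, pow_one, v.2]
    rw [Finset.mem_filter, PZ, Finset.mem_filter, mem_SZ, h6]
    exact ⟨⟨hpZ, hp⟩, rfl⟩
  · intro v _ w _ h
    exact Subtype.ext h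
  · intro v hv
    rw [Finset.mem_filter] at hv
    obtain ⟨h3, h4, h5⟩ := nm_eq v
    have h6 : nm v = P := hv.2
    have h7 : (below v : ℕ) = P := by
      have h8 : (below v : ℕ) ∣ P := by rw [← h6, h3]; exact dvd_pow_self _ h4.ne'
      exact (Nat.prime_dvd_prime_iff_eq (below v).2 hp).1 h8
    have h8 : deg v = 1 := by
      have h9 : (P : ℕ) ^ deg v = P ^ 1 := by
        rw [pow_one]
        nth_rewrite 1 [← h7]
        rw [← h3, h6]
      exact Nat.pow_right_injective hp.two_le h9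
    exact ⟨⟨v, Subtype.ext h7⟩, Finset.mem_filter.2 ⟨Finset.mem_univ _, h8⟩, rfl⟩

theorem card_fiber {Z : ℕ} {p : ℕ} (hp : p.Prime) (hpZ : p ≤ Z) :
    ((PZ K Z).filter fun v => nv v = p).card = Nat.card (𝓞 K →+* ZMod p) :=
  card_fiber' ⟨p, hp⟩ hpZ

theorem sum_PZ (Z : ℕ) : ∑ v ∈ PZ K Z, 1 / (nv v : ℝ) = ∑ p ∈ PR (Z : ℝ), (Nat.card (𝓞 K →+* ZMod p) : ℝ) / (p : ℝ) := by
  classical
  have hmaps : ∀ v ∈ PZ K Z, nv v ∈ PR (Z : ℝ) := by
    intro v hv
    rw [PZ, Finset.mem_filter, mem_SZ] at hv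
    rw [PR, Finset.mem_filter, Finset.mem_Icc, Nat.floor_natCast]
    exact ⟨⟨hv.2.one_lt.le, hv.1⟩, hv.2⟩
  rw [← Finset.sum_fiberwise_of_maps_to hmaps]
  refine Finset.sum_congr rfl fun p hp => ?_
  rw [PR, Finset.mem_filter, Finset.mem_Icc, Nat.floor_natCast] at hp
  rw [← card_fiber hp.2 hp.1.2, Finset.sum_congr rfl (fun v hv => by rw [(Finset.mem_filter.1 hv).2]), Finset.sum_const,
    nsmul_eq_mul, mul_one_div]

theorem cv_close (v : HeightOneSpectrum (𝓞 K)) : |cv v - 1 / nv v| ≤ 2 * (nv v : ℝ) ^ (-(2 : ℝ)) := by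
  obtain ⟨h1, h2⟩ := inv_nv_le v
  have h := log_one' (x := 1 / (nv v : ℝ)) h1.le h2
  have e : (nv v : ℝ) ^ (-(2 : ℝ)) = (1 / (nv v : ℝ)) ^ 2 := by
    rw [Real.rpow_neg (nv_pos v).le, one_div, inv_pow]
    norm_num
  rw [e]
  exact h

theorem sq_bound : ∃ C : ℝ, 0 ≤ C ∧ ∀ F : Finset (HeightOneSpectrum (𝓞 K)), ∑ v ∈ F, |cv v - 1 / nv v| ≤ C := by
  have hs := (nm_summable (K := K) (x := 2) (by norm_num)).mul_left 2
  refine ⟨_, tsum_nonneg (fun v => by positivity), fun F => (Finset.sum_le_sum fun v _ => cv_close v).trans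
    (hs.sum_le_tsum F fun v _ => by positivity)⟩

/-- the sum over the places of prime norm -/
noncomputable def VP (K : Type) [Field K] [NumberField K] (Z : ℕ) : ℝ := ∑ v ∈ PZ K Z, cv v

variable (K) in
theorem VP_mert : ∃ C : ℝ, 0 ≤ C ∧ ∀ Z : ℕ, 3 ≤ Z → |VP K Z - LL Z| ≤ C := by
  obtain ⟨C1, hC1⟩ := Pool.Agent.H474R2.GE.homs_upper K
  obtain ⟨C2, hC2⟩ := Pool.Agent.H474R2.PG.homs_lower K
  obtain ⟨C3, hC3, h3⟩ := sq_bound (K := K)
  refine ⟨max C1 0 + max C2 0 + C3, by positivity, fun Z hZ => ?_⟩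
  have h1 := hC1 Z (by exact_mod_cast hZ)
  have h2 := hC2 Z (by exact_mod_cast hZ)
  rw [← sum_PZ] at h1 h2
  have h4 : |VP K Z - ∑ v ∈ PZ K Z, 1 / (nv v : ℝ)| ≤ C3 := by
    unfold VP
    rw [← Finset.sum_sub_distrib]
    exact (Finset.abs_sum_le_sum_abs _ _).trans (h3 _)
  have h5 : LL Z = Real.log (Real.log (Z : ℝ)) := rfl
  rw [h5]
  obtain ⟨h6, h7⟩ := abs_le.1 h4
  have h8 := le_max_left C1 0
  have h9 := le_max_right C1 0
  have h10 := le_max_left C2 0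
  have h11 := le_max_right C2 0
  rw [abs_le]
  constructor <;> linarith

theorem VZ_split (Z : ℕ) (f : HeightOneSpectrum (𝓞 K) → ℝ) :
    ∑ v ∈ SZ K Z, f v = ∑ v ∈ PZ K Z, f v + ∑ v ∈ (SZ K Z).filter (fun v => ¬ (nv v).Prime), f v := by
  classical
  exact (Finset.sum_filter_add_sum_filter_not (SZ K Z) (fun v => (nv v).Prime) _).symm

variable (K) in
/-- **Mertens' theorem for the number field `K`.** -/
theorem VZ_mert : ∃ C : ℝ, 0 ≤ C ∧ ∀ Z : ℕ, 3 ≤ Z → |VZ K Z - LL Z| ≤ C := by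
  classical
  obtain ⟨C1, hC1, h1⟩ := VP_mert K
  obtain ⟨C2, hC2, h2⟩ := nonprime_bound K
  refine ⟨C1 + C2, by positivity, fun Z hZ => ?_⟩
  have h3 := h1 Z hZ
  have h4 := h2 ((SZ K Z).filter fun v => ¬ (nv v).Prime) fun v hv => (Finset.mem_filter.1 hv).2
  have h5 : 0 ≤ ∑ v ∈ (SZ K Z).filter (fun v => ¬ (nv v).Prime), cv v := Finset.sum_nonneg fun v _ => (cv_pos v).le
  have h6 : VZ K Z = VP K Z + ∑ v ∈ (SZ K Z).filter (fun v => ¬ (nv v).Prime), cv v := by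
    unfold VZ VP
    exact VZ_split Z _
  rw [h6]
  obtain ⟨h7, h8⟩ := abs_le.1 h3
  rw [abs_le]
  constructor <;> linarith

end

/-! ### the quadratic character -/

section
variable {K : Type} [Field K] [NumberField K]

theorem chi_abs (D : 𝓞 K) (v : HeightOneSpectrum (𝓞 K)) : |(chi D v : ℝ)| ≤ 1 := by
  have h : chi D v = 0 ∨ chi D v = 1 ∨ chi D v = -1 := quadraticChar_isQuadratic (F := kv v) _
  rcases h with h | h | h <;> rw [h] <;> norm_num

theorem chi_mul (D E : 𝓞 K) (v : HeightOneSpectrum (𝓞 K)) : chi (D * E) v = chi D v * chi E v := by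
  unfold chi
  rw [map_mul, map_mul]

variable {L : Type} [Field L] [NumberField L] [Algebra K L]

theorem mem_dn {w : HeightOneSpectrum (𝓞 L)} {x : 𝓞 K} : x ∈ (dn K L w).asIdeal ↔ algebraMap (𝓞 K) (𝓞 L) x ∈ w.asIdeal :=
  Iff.rfl

theorem norm_pow (w : HeightOneSpectrum (𝓞 L)) : ∃ f : ℕ, 0 < f ∧ nv w = nv (dn K L w) ^ f := by
  have := liesOver K L w
  have h := Ideal.absNorm_eq_pow_inertiaDeg'_of_liesOver w.asIdeal (dn K L w).asIdeal (dn K L w).isPrime (dn K L w).ne_bot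
  refine ⟨_, ?_, h⟩
  rw [Nat.pos_iff_ne_zero]
  intro h0
  rw [h0, pow_zero] at h
  have h1 := two_le_nv w
  unfold nv at h1
  omega

/-- two different primes above `v` in a quadratic extension -/
theorem split_norm (hL : Module.finrank K L = 2) {w₀ w₁ : HeightOneSpectrum (𝓞 L)} (hne : w₀ ≠ w₁)
    (h : dn K L w₀ = dn K L w₁) : nv w₀ = nv (dn K L w₀) ∧ nv w₁ = nv (dn K L w₀) := by
  obtain ⟨v, hv⟩ : ∃ v, v = dn K L w₀ := ⟨_, rfl⟩
  obtain ⟨f₀, hf₀, h₀⟩ := norm_pow (K := K) w₀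
  obtain ⟨f₁, hf₁, h₁⟩ := norm_pow (K := K) w₁
  rw [← h] at h₁
  rw [← hv] at h₀ h₁ ⊢
  have hcop : IsCoprime w₀.asIdeal w₁.asIdeal := by
    rw [Ideal.isCoprime_iff_sup_eq]
    exact (w₀.isPrime.isMaximal w₀.ne_bot).coprime_of_ne (w₁.isPrime.isMaximal w₁.ne_bot)
      (fun h => hne (HeightOneSpectrum.ext h))
  have hd : w₀.asIdeal * w₁.asIdeal ∣ v.asIdeal.map (algebraMap (𝓞 K) (𝓞 L)) := by
    refine hcop.mul_dvd ?_ ?_
    · rw [Ideal.dvd_iff_le, Ideal.map_le_iff_le_comap, hv]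
      exact le_rfl
    · rw [Ideal.dvd_iff_le, Ideal.map_le_iff_le_comap, hv, h]
      exact le_rfl
  have h2 := map_dvd Ideal.absNorm hd
  have hfr : Module.finrank (𝓞 K) (𝓞 L) = 2 := by
    rw [← hL, IsFractionRing.finrank_eq (𝓞 K) K (𝓞 L) L]
  rw [map_mul, Ideal.absNorm_algebraMap, hfr] at h2
  have e0 : Ideal.absNorm w₀.asIdeal = nv v ^ f₀ := h₀
  have e1 : Ideal.absNorm w₁.asIdeal = nv v ^ f₁ := h₁
  have e2 : Ideal.absNorm v.asIdeal = nv v := rfl
  rw [e0, e1, e2, ← pow_add] at h2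
  have h3 := (Nat.pow_dvd_pow_iff_le_right (two_le_nv v)).1 h2
  have h4 : f₀ = 1 := by omega
  have h5 : f₁ = 1 := by omega
  rw [h₀, h₁, h4, h5, pow_one]
  exact ⟨rfl, rfl⟩

/-- the conjugate prime -/
noncomputable def conj (σ : L ≃ₐ[K] L) (w : HeightOneSpectrum (𝓞 L)) : HeightOneSpectrum (𝓞 L) where
  asIdeal := w.asIdeal.comap (RingOfIntegers.mapRingEquiv σ.toRingEquiv : 𝓞 L →+* 𝓞 L)
  isPrime := Ideal.IsPrime.comap _
  ne_bot := by
    obtain ⟨x, hx, hx0⟩ := Submodule.exists_mem_ne_zero_of_ne_bot w.ne_bot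
    rw [Submodule.ne_bot_iff]
    refine ⟨(RingOfIntegers.mapRingEquiv σ.toRingEquiv).symm x, ?_, ?_⟩
    · rw [Ideal.mem_comap]
      simpa using hx
    · simpa using hx0

theorem dn_conj (σ : L ≃ₐ[K] L) (w : HeightOneSpectrum (𝓞 L)) : dn K L (conj σ w) = dn K L w := by
  apply HeightOneSpectrum.ext
  ext x
  show (RingOfIntegers.mapRingEquiv σ.toRingEquiv : 𝓞 L →+* 𝓞 L) (algebraMap (𝓞 K) (𝓞 L) x) ∈ w.asIdeal ↔
    algebraMap (𝓞 K) (𝓞 L) x ∈ w.asIdeal
  have e : (RingOfIntegers.mapRingEquiv σ.toRingEquiv : 𝓞 L →+* 𝓞 L) (algebraMap (𝓞 K) (𝓞 L) x) = algebraMap (𝓞 K) (𝓞 L) x := by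
    apply RingOfIntegers.ext
    show σ (algebraMap K L x) = algebraMap K L x
    exact σ.commutes _
  rw [e]

theorem exists_above (v : HeightOneSpectrum (𝓞 K)) : ∃ w : HeightOneSpectrum (𝓞 L), dn K L w = v := by
  obtain ⟨⟨P, hP, hPv⟩⟩ := Ideal.nonempty_primesOver (S := 𝓞 L) v.asIdeal
  have hne : P ≠ ⊥ := by
    rintro rfl
    have h1 := hPv.over
    rw [Ideal.under_bot] at h1
    exact v.ne_bot h1
  refine ⟨⟨P, hP, hne⟩, ?_⟩
  apply HeightOneSpectrum.ext
  exact hPv.over.symm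

variable {D : 𝓞 K} {δ : 𝓞 L}

/-- the number of the primes above `v` of the same norm -/
theorem card_same (hL : Module.finrank K L = 2) (hδ : δ ^ 2 = algebraMap (𝓞 K) (𝓞 L) D) (σ : L ≃ₐ[K] L)
    (hσ : σ (δ : L) = -(δ : L)) {v : HeightOneSpectrum (𝓞 K)} (hv : (nv v).Prime) (h2 : (2 : 𝓞 K) ∉ v.asIdeal)
    (hD : D ∉ v.asIdeal) {Z : ℕ} (hZ : nv v ≤ Z) :
    (((PZ L Z).filter (fun w => dn K L w = v)).card : ℤ) = 1 + chi D v := by
  classical
  have hDv : (Ideal.Quotient.mk v.asIdeal D : kv v) ≠ 0 := by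
    rw [Ne, Ideal.Quotient.eq_zero_iff_mem]
    exact hD
  have hmem : ∀ w, w ∈ (PZ L Z).filter (fun w => dn K L w = v) ↔ nv w = nv v ∧ dn K L w = v := by
    intro w
    rw [Finset.mem_filter, PZ, Finset.mem_filter, mem_SZ]
    constructor
    · rintro ⟨⟨_, h⟩, h3⟩
      exact ⟨by rw [← h3]; exact (norm_dn K L w h rfl).symm, h3⟩
    · rintro ⟨h, h3⟩
      rw [h]
      exact ⟨⟨hZ, hv⟩, h3⟩
  rcases quadraticChar_dichotomy hDv with hc | hc
  · -- the split case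
    have hchi : chi D v = 1 := hc
    rw [hchi]
    rw [quadraticChar_one_iff_isSquare hDv] at hc
    obtain ⟨s', hs'⟩ := hc
    obtain ⟨s, rfl⟩ := Ideal.Quotient.mk_surjective s'
    rw [← map_mul, Ideal.Quotient.mk_eq_mk_iff_sub_mem] at hs'
    have hs : s ∉ v.asIdeal := by
      intro h
      apply hD
      have := v.asIdeal.add_mem hs' (v.asIdeal.mul_mem_left s h)
      simpa using this
    obtain ⟨w₀, hw₀⟩ := exists_above (L := L) v
    have hkey : ∀ w : HeightOneSpectrum (𝓞 L), dn K L w = v →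
        δ - algebraMap (𝓞 K) (𝓞 L) s ∈ w.asIdeal ∨ δ + algebraMap (𝓞 K) (𝓞 L) s ∈ w.asIdeal := by
      intro w hw
      rw [← hw, mem_dn, map_sub, map_mul, ← hδ] at hs'
      refine w.isPrime.mem_or_mem ?_
      have e : (δ - algebraMap (𝓞 K) (𝓞 L) s) * (δ + algebraMap (𝓞 K) (𝓞 L) s) =
          δ ^ 2 - algebraMap (𝓞 K) (𝓞 L) s * algebraMap (𝓞 K) (𝓞 L) s := by ring
      rw [e]
      exact hs'
    have hconjδ : (RingOfIntegers.mapRingEquiv σ.toRingEquiv : 𝓞 L →+* 𝓞 L) δ = -δ := by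
      apply RingOfIntegers.ext
      show σ (δ : L) = _
      rw [hσ]
      rfl
    have hconjs : (RingOfIntegers.mapRingEquiv σ.toRingEquiv : 𝓞 L →+* 𝓞 L) (algebraMap (𝓞 K) (𝓞 L) s) =
        algebraMap (𝓞 K) (𝓞 L) s := by
      apply RingOfIntegers.ext
      show σ (algebraMap K L s) = algebraMap K L s
      exact σ.commutes _
    have h2s : ∀ w : HeightOneSpectrum (𝓞 L), dn K L w = v → algebraMap (𝓞 K) (𝓞 L) (2 * s) ∉ w.asIdeal := by
      intro w hw h
      rw [← mem_dn, hw] at h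
      rcases v.isPrime.mem_or_mem h with h3 | h3
      · exact h2 h3
      · exact hs h3
    have hne : w₀ ≠ conj σ w₀ := by
      intro heq
      have hmc : ∀ x : 𝓞 L, x ∈ w₀.asIdeal ↔ (RingOfIntegers.mapRingEquiv σ.toRingEquiv : 𝓞 L →+* 𝓞 L) x ∈ w₀.asIdeal := by
        intro x
        conv_lhs => rw [heq]
        exact Iff.rfl
      apply h2s w₀ hw₀
      rcases hkey w₀ hw₀ with h | h
      · have h3 := (hmc _).1 h
        rw [map_sub, hconjδ, hconjs] at h3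
        have h4 := w₀.asIdeal.neg_mem (w₀.asIdeal.add_mem h h3)
        have e : -(δ - algebraMap (𝓞 K) (𝓞 L) s + (-δ - algebraMap (𝓞 K) (𝓞 L) s)) = algebraMap (𝓞 K) (𝓞 L) (2 * s) := by
          rw [map_mul, map_ofNat]; ring
        rwa [e] at h4
      · have h3 := (hmc _).1 h
        rw [map_add, hconjδ, hconjs] at h3
        have h4 := w₀.asIdeal.add_mem h h3
        have e : (δ + algebraMap (𝓞 K) (𝓞 L) s + (-δ + algebraMap (𝓞 K) (𝓞 L) s)) = algebraMap (𝓞 K) (𝓞 L) (2 * s) := by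
          rw [map_mul, map_ofNat]; ring
        rwa [e] at h4
    obtain ⟨n0, n1⟩ := split_norm hL hne (dn_conj σ w₀).symm
    rw [hw₀] at n0 n1
    have hle : ((PZ L Z).filter (fun w => dn K L w = v)).card ≤ 2 := by
      rw [← hL]
      exact card_above' K L v _ fun w hw => (Finset.mem_filter.1 hw).2
    have hge : 2 ≤ ((PZ L Z).filter (fun w => dn K L w = v)).card := by
      rw [← Finset.card_pair hne]
      refine Finset.card_le_card fun w hw => ?_
      rw [Finset.mem_insert, Finset.mem_singleton] at hw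
      rw [hmem]
      rcases hw with rfl | rfl
      · exact ⟨n0, hw₀⟩
      · exact ⟨n1, (dn_conj σ w₀).trans hw₀⟩
    omega
  · -- the inert case
    have hchi : chi D v = -1 := hc
    rw [hchi]
    have hnsq := (quadraticChar_neg_one_iff_not_isSquare (F := kv v)).1 hc
    have hem : (PZ L Z).filter (fun w => dn K L w = v) = ∅ := by
      rw [Finset.eq_empty_iff_forall_notMem]
      intro w hw
      obtain ⟨hn, hdw⟩ := (hmem w).1 hw
      apply hnsq
      subst hdw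
      let φ : kv (dn K L w) →+* kv w := Ideal.quotientMap w.asIdeal (algebraMap (𝓞 K) (𝓞 L)) le_rfl
      have hφ : Function.Injective φ := φ.injective
      have hbij : Function.Bijective φ := by
        rw [Fintype.bijective_iff_injective_and_card]
        exact ⟨hφ, by rw [card_kv, card_kv, hn]⟩
      obtain ⟨x, hx⟩ := hbij.2 (Ideal.Quotient.mk w.asIdeal δ)
      refine ⟨x, hφ ?_⟩
      rw [map_mul, hx, ← map_mul, ← sq, hδ]
      rfl
    rw [hem]
    simp

end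

end Run7.h9.TW
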